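import Pool.Agent.Helper89.OS.St2

set_option autoImplicit false

namespace Pool.Agent.Helper39.OS

open Matrix ComplexConjugate Pool.Agent.Helper94.YF Pool.Agent.Helper94.YG
open Pool.Agent.Helper89.OS

section

variable {I : Type} [Fintype I] [DecidableEq I] {p : ℕ}

theorem s_ok {a : ℕ} (X : PD I p a) (k : I) : X.s X.o k = (X.y k : ℂ) := by
  rw [X.s_symm, X.s_o]

theorem sum_sq {a : ℕ} (X : PD I p a) : ∑ k, (X.y k : ℂ) ^ 2 = (p : ℂ) ^ 2 := by
  have h := X.s_uni X.o X.o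
  rw [if_pos rfl] at h
  rw [← h]
  refine Finset.sum_congr rfl (fun k _ => ?_)
  rw [s_ok, map_intCast]
  ring

theorem t_pow' (X : PD I p 1) (k : I) : X.t k ^ p = 1 := by
  have := X.t_pow k
  rwa [pow_one] at this

theorem weil_o (X : PD I p 1) (w : ℕ) (hw0 : w ≠ 0) (hwp : w < p) :
    ∑ k, X.t k ^ w * (X.y k : ℂ) ^ 2 = (p : ℂ) * X.y X.o := by
  have hc : Nat.Coprime w (p ^ 1) := by
    rw [pow_one]
    exact ((Nat.Prime.coprime_iff_not_dvd X.prime).2
      (fun h => hw0 (Nat.eq_zero_of_dvd_of_lt h hwp))).symm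
  have h := X.weil (ZMod.unitOfCoprime w hc) X.o X.o
  have hv : ((ZMod.unitOfCoprime w hc : (ZMod (p ^ 1))ˣ) : ZMod (p ^ 1)).val = w := by
    rw [ZMod.coe_unitOfCoprime, ZMod.val_natCast, pow_one, Nat.mod_eq_of_lt hwp]
  rw [hv, X.pi_o, X.t_o, X.s_o] at h
  simp only [one_pow, mul_one] at h
  rw [← h]
  refine Finset.sum_congr rfl (fun k _ => ?_)
  rw [s_ok, X.s_o]
  ring

theorem geo (θ : ℂ) (hθ : θ ^ p = 1) :
    ∑ w ∈ Finset.range p, θ ^ w = if θ = 1 then (p : ℂ) else 0 := by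
  split_ifs with h
  · rw [h]; simp
  · rw [geom_sum_eq h, hθ, sub_self, zero_div]

open Classical in
theorem main_sum (X : PD I p 1) (ζ : ℂ) (hζ : ζ ^ p = 1) :
    (p : ℂ) * (∑ i, if X.t i = ζ then (X.y i : ℂ) ^ 2 else 0) =
      (p : ℂ) ^ 2 - (p : ℂ) * X.y X.o + (p : ℂ) * X.y X.o * (if ζ = 1 then (p : ℂ) else 0) := by
  have hp0 : p ≠ 0 := X.prime.ne_zero
  have hζ0 : ζ ≠ 0 := by
    rintro rfl
    rw [zero_pow hp0] at hζ
    exact zero_ne_one hζ
  have h1 : (p : ℂ) * (∑ i, if X.t i = ζ then (X.y i : ℂ) ^ 2 else 0) =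
      ∑ w ∈ Finset.range p, (ζ⁻¹) ^ w * ∑ k, X.t k ^ w * (X.y k : ℂ) ^ 2 := by
    simp only [Finset.mul_sum]
    rw [Finset.sum_comm]
    refine Finset.sum_congr rfl (fun k _ => ?_)
    have h2 : ∑ w ∈ Finset.range p, (ζ⁻¹) ^ w * (X.t k ^ w * (X.y k : ℂ) ^ 2) =
        (∑ w ∈ Finset.range p, (ζ⁻¹ * X.t k) ^ w) * (X.y k : ℂ) ^ 2 := by
      rw [Finset.sum_mul]
      refine Finset.sum_congr rfl (fun w _ => ?_)
      rw [mul_pow]
      ring
    rw [h2, geo _ (by rw [mul_pow, inv_pow, hζ, t_pow' X k]; simp)]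
    by_cases hk : X.t k = ζ
    · rw [if_pos hk, if_pos (by rw [hk]; exact inv_mul_cancel₀ hζ0)]
    · rw [if_neg hk, if_neg (fun h => hk (by
        have : X.t k = ζ * (ζ⁻¹ * X.t k) := by rw [← mul_assoc, mul_inv_cancel₀ hζ0, one_mul]
        rw [this, h, mul_one]))]
      simp
  rw [h1]
  have h3 : ∀ w ∈ Finset.range p, (ζ⁻¹) ^ w * ∑ k, X.t k ^ w * (X.y k : ℂ) ^ 2 =
      (if w = 0 then (p : ℂ) ^ 2 - (p : ℂ) * X.y X.o else 0) + (p : ℂ) * X.y X.o * (ζ⁻¹) ^ w := by
    intro w hw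
    by_cases hw0 : w = 0
    · subst hw0
      simp only [pow_zero, one_mul, if_true, mul_one]
      rw [sum_sq]
      ring
    · rw [weil_o X w hw0 (Finset.mem_range.1 hw), if_neg hw0]
      ring
  rw [Finset.sum_congr rfl h3, Finset.sum_add_distrib, ← Finset.mul_sum,
    geo _ (by rw [inv_pow, hζ, inv_one])]
  have h4 : ∑ w ∈ Finset.range p, (if w = 0 then (p : ℂ) ^ 2 - (p : ℂ) * X.y X.o else 0) =
      (p : ℂ) ^ 2 - (p : ℂ) * X.y X.o := by
    rw [Finset.sum_ite_eq' (Finset.range p) 0, if_pos (Finset.mem_range.2 (Nat.pos_of_ne_zero hp0))]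
  rw [h4]
  simp only [inv_eq_one]

end

theorem hMZZ : StMZZ := by
  classical
  intro I _ _ p X
  have hp : p.Prime := X.prime
  have hp0 : (p : ℂ) ≠ 0 := by exact_mod_cast hp.ne_zero
  have hp3 : 3 ≤ p := by
    have h2 := hp.two_le
    have ho := X.p_odd
    rcases Nat.lt_or_ge p 3 with h | h
    · have : p = 2 := by omega
      rw [this] at ho
      exact absurd ho (by decide)
    · exact h
  have c1 : ∀ ζ : ℂ, ζ ≠ 1 → ζ ^ p = 1 →
      (∑ i, if X.t i = ζ then X.y i ^ 2 else 0) = (p : ℤ) - X.y X.o := by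
    intro ζ h1 h2
    have h := main_sum X ζ h2
    rw [if_neg h1, mul_zero, add_zero] at h
    have h' : (∑ i, if X.t i = ζ then (X.y i : ℂ) ^ 2 else 0) = (p : ℂ) - X.y X.o := by
      apply mul_left_cancel₀ hp0
      rw [h]; ring
    have h5 : ((∑ i, if X.t i = ζ then X.y i ^ 2 else 0 : ℤ) : ℂ) =
        (((p : ℤ) - X.y X.o : ℤ) : ℂ) := by
      push_cast
      exact h'
    exact_mod_cast h5
  have c2 : (∑ i, if X.t i = 1 then X.y i ^ 2 else 0) = (p : ℤ) + (p - 1) * X.y X.o := by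
    have h := main_sum X 1 (one_pow p)
    rw [if_pos rfl] at h
    have h' : (∑ i, if X.t i = 1 then (X.y i : ℂ) ^ 2 else 0) =
        (p : ℂ) + ((p : ℂ) - 1) * X.y X.o := by
      apply mul_left_cancel₀ hp0
      rw [h]; ring
    have h5 : ((∑ i, if X.t i = 1 then X.y i ^ 2 else 0 : ℤ) : ℂ) =
        (((p : ℤ) + (p - 1) * X.y X.o : ℤ) : ℂ) := by
      push_cast
      exact h'
    exact_mod_cast h5
  obtain ⟨k0, hk1, hk2⟩ := X.ex
  have hk2' : X.t k0 ≠ 1 := by
    intro h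
    apply hk2
    rw [h, one_pow]
  have hs0 := c1 (X.t k0) hk2' (t_pow' X k0)
  -- even
  have hev : Even ((p : ℤ) - X.y X.o) := by
    rw [← hs0, ← Finset.sum_filter, even_iff_two_dvd]
    rw [show (2 : ℤ) = ((2 : ℕ) : ℤ) by norm_num, ← ZMod.intCast_zmod_eq_zero_iff_dvd,
      Int.cast_sum]
    refine Finset.sum_involution (fun a _ => X.st a) ?_ ?_ ?_ ?_
    · intro a _
      rw [X.y_st]
      exact CharTwo.add_self_eq_zero _
    · intro a ha _ hst
      have hao := X.nsd a hst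
      rw [hao] at ha
      have := (Finset.mem_filter.1 ha).2
      rw [X.t_o] at this
      exact hk2' this.symm
    · intro a ha
      rw [Finset.mem_filter] at ha ⊢
      exact ⟨Finset.mem_univ _, by rw [X.t_st]; exact ha.2⟩
    · intro a _
      exact X.st_st a
  have hpos : 1 ≤ (p : ℤ) - X.y X.o := by
    rw [← hs0]
    have h1 : (if X.t k0 = X.t k0 then X.y k0 ^ 2 else 0) ≤
        ∑ i, if X.t i = X.t k0 then X.y i ^ 2 else 0 :=
      Finset.single_le_sum (f := fun i => if X.t i = X.t k0 then X.y i ^ 2 else 0)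
        (fun i _ => by split_ifs <;> positivity) (Finset.mem_univ k0)
    rw [if_pos rfl] at h1
    have h2 : 0 < X.y k0 ^ 2 := by positivity
    omega
  have hge : 2 ≤ (p : ℤ) - X.y X.o := by
    obtain ⟨c, hc⟩ := hev
    omega
  have hxo : X.y X.o % 2 = 1 := by
    obtain ⟨c, hc⟩ := hev
    obtain ⟨q, hq⟩ := X.p_odd
    omega
  have hle : X.y X.o ^ 2 ≤ (p : ℤ) + (p - 1) * X.y X.o := by
    rw [← c2]
    have h1 : (if X.t X.o = 1 then X.y X.o ^ 2 else 0) ≤
        ∑ i, if X.t i = 1 then X.y i ^ 2 else 0 :=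
      Finset.single_le_sum (f := fun i => if X.t i = 1 then X.y i ^ 2 else 0)
        (fun i _ => by split_ifs <;> positivity) (Finset.mem_univ X.o)
    rwa [if_pos X.t_o] at h1
  have hp3' : (3 : ℤ) ≤ p := by exact_mod_cast hp3
  have hx1 : 1 ≤ X.y X.o := by
    by_contra hneg
    have hle1 : X.y X.o ≤ -1 := by omega
    rcases lt_or_eq_of_le hle1 with h | h
    · have h2 : X.y X.o ≤ -2 := by omega
      nlinarith
    · -- `x = -1`
      have hz : ∀ i, i ≠ X.o → X.t i = 1 → X.y i = 0 := by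
        intro i hi hti
        by_contra hyi
        have h1 : (∑ j ∈ ({X.o, i} : Finset I), if X.t j = 1 then X.y j ^ 2 else 0) ≤
            ∑ j, if X.t j = 1 then X.y j ^ 2 else 0 :=
          Finset.sum_le_sum_of_subset_of_nonneg (Finset.subset_univ _)
            (fun j _ _ => by split_ifs <;> positivity)
        rw [Finset.sum_pair (Ne.symm hi), if_pos X.t_o, if_pos hti, c2, h] at h1
        have h2 : 0 < X.y i ^ 2 := by positivity
        nlinarith
      have hk := X.kap_y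
      have h1 : ∑ i, X.y i * (X.kap i : ℤ) = X.y X.o * (X.kap X.o : ℤ) := by
        refine Finset.sum_eq_single X.o ?_ (fun h => absurd (Finset.mem_univ _) h)
        intro i _ hi
        by_cases hki : X.kap i = 0
        · rw [hki]; simp
        · rw [hz i hi (X.kap_t i hki)]; simp
      rw [h1, h, X.kap_o] at hk
      push_cast at hk
  refine ⟨c1, c2, ⟨k0, hk1, hk2'⟩, hev, hge, hx1, ?_⟩
  intro hdvd
  have := Int.le_of_dvd (by omega) hdvd
  omega

end Pool.Agent.Helper39.OS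

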